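import Pool.Agent.MT100E.Stmts
import Pool.Agent.Helper97_MTA.Lah

/-! MT100-E, module FKD: the comparison of the determinants for families of the first kind. -/

set_option autoImplicit false
set_option linter.unusedSectionVars false

namespace Pool.Agent.MT100E.H2

open Matrix Pool.Agent.MT100 Pool.Agent.MT100G Pool.Agent.MT100A Pool.Agent.MT100D
  Pool.Agent.Helper78_MT Pool.Agent.MT100A.H78 Pool.Agent.Helper46_MT

variable {d : Type} [Fintype d] [DecidableEq d] {M : Set (Matrix d d ℂ)} {w : ℕ}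
  {E : Matrix d d ℚ} {π : ℕ → Matrix d d ℂ}

/-! ### The determinant on the image of an idempotent -/

theorem dete_one (e : Matrix d d ℂ) : dete 1 e = 1 := by
  unfold dete
  rw [one_mul, add_sub_cancel, det_one]

theorem dete_mul {g h e : Matrix d d ℂ} (he : e * e = e) (hh : h * e = e * h) :
    dete (g * h) e = dete g e * dete h e := by
  unfold dete
  rw [← det_mul]
  congr 1
  have h1 : g * e * (h * e) = g * h * e := by
    rw [Matrix.mul_assoc, ← Matrix.mul_assoc e h e, ← hh, Matrix.mul_assoc h e e, he,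
      Matrix.mul_assoc]
  have h2 : g * e * (1 - e) = 0 := by
    rw [mul_sub, mul_one, Matrix.mul_assoc, he, sub_self]
  have h3 : (1 - e) * (h * e) = 0 := by
    rw [sub_mul, one_mul, ← Matrix.mul_assoc, ← hh, Matrix.mul_assoc, he, sub_self]
  have h4 : (1 - e) * (1 - e) = 1 - e := by
    rw [mul_sub, mul_one, sub_mul, one_mul, he, sub_self, sub_zero]
  rw [add_mul, mul_add, mul_add, h1, h2, h3, h4, add_zero, zero_add]

theorem dete_sq {F g e : Matrix d d ℂ} {c : ℂ} (hF : IsUnit F.det) (he : e * e = e)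
    (hg : g * e = e * g) (hs : eᵀ * F = F * e) (hc : gᵀ * F * g = c • F) :
    dete g e ^ 2 = (c • e + (1 - e)).det := by
  have h3 : (1 - e) * (g * e) = 0 := by
    rw [sub_mul, one_mul, ← Matrix.mul_assoc, ← hg, Matrix.mul_assoc, he, sub_self]
  have h4 : (1 - e) * (1 - e) = 1 - e := by
    rw [mul_sub, mul_one, sub_mul, one_mul, he, sub_self, sub_zero]
  have hs' : (1 - e)ᵀ * F = F * (1 - e) := by
    rw [transpose_sub, transpose_one, sub_mul, one_mul, mul_sub, mul_one, hs]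
  have h1 : (g * e)ᵀ * F * (g * e) = c • (F * e) := by
    calc (g * e)ᵀ * F * (g * e) = eᵀ * (gᵀ * F * g) * e := by
          rw [transpose_mul]
          simp only [Matrix.mul_assoc]
      _ = c • (eᵀ * F * e) := by rw [hc, Matrix.mul_smul, Matrix.smul_mul]
      _ = c • (F * e) := by rw [hs, Matrix.mul_assoc, he]
  have h2 : (g * e)ᵀ * F * (1 - e) = 0 := by
    rw [Matrix.mul_assoc, ← hs', ← Matrix.mul_assoc, ← transpose_mul, h3, transpose_zero, zero_mul]
  have h5 : (1 - e)ᵀ * F * (g * e) = 0 := by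
    rw [hs', Matrix.mul_assoc, h3, mul_zero]
  have h6 : (1 - e)ᵀ * F * (1 - e) = F * (1 - e) := by
    rw [hs', Matrix.mul_assoc, h4]
  have h7 : (g * e + (1 - e))ᵀ * F * (g * e + (1 - e)) = F * (c • e + (1 - e)) := by
    rw [transpose_add, add_mul, add_mul, mul_add, mul_add, h1, h2, h5, h6, add_zero, zero_add,
      mul_add, Matrix.mul_smul]
  have h8 := congrArg Matrix.det h7
  rw [det_mul, det_mul, det_mul, det_transpose] at h8
  unfold dete
  apply mul_left_cancel₀ hF.ne_zero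
  linear_combination h8

theorem det_pow_trace (hD : DteStmt) {e : Matrix d d ℂ} (he : e * e = e) {n : ℕ}
    (hn : e.trace = (n : ℂ)) (c : ℂ) : (c • e + (1 - e)).det = c ^ n := by
  have h := hD d 1 (fun _ => 1) (fun _ => c) 1 e (fun _ => one_mul 1)
    (fun a b hab => absurd (Subsingleton.elim a b) hab) (by simp)
    ⟨1, by rw [sub_self, pow_one]⟩ (fun _ => rfl) he (fun _ => by rw [one_mul, mul_one])
    (by rw [one_mul, mul_one]) (fun _ => n) (fun _ => by rw [one_mul, hn])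
  unfold dete at h
  simpa using h

/-! ### The adjoint -/

/-- the commutant is stable under the adjunction -/
theorem adj {ε : ℂ} (hε : ε ≠ 0) {F : Matrix d d ℂ} (hF : IsUnit F.det) (hs : Fᵀ = ε • F)
    (hn : ∀ X ∈ nilP M, Xᵀ * F + F * X = 0) {B : Matrix d d ℂ} (hB : B ∈ Cmt M) :
    ∃ B' ∈ Cmt M, F * B' = Bᵀ * F ∧ B'ᵀ * F = F * B ∧ B'.trace = B.trace := by
  have hinj : ∀ X Y : Matrix d d ℂ, F * X = F * Y → X = Y := by
    intro X Y h
    have := congrArg (fun Z => F⁻¹ * Z) h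
    simpa only [← Matrix.mul_assoc, nonsing_inv_mul F hF, one_mul] using this
  obtain ⟨B', hB'⟩ : ∃ B', B' = F⁻¹ * (Bᵀ * F) := ⟨_, rfl⟩
  have h1 : F * B' = Bᵀ * F := by
    rw [hB', ← Matrix.mul_assoc, mul_nonsing_inv F hF, one_mul]
  have h2 : B'ᵀ * F = F * B := by
    have h3 := congrArg Matrix.transpose h1
    rw [transpose_mul, transpose_mul, transpose_transpose, hs, Matrix.mul_smul,
      Matrix.smul_mul] at h3
    exact smul_right_injective _ hε h3
  refine ⟨B', ?_, h1, h2, ?_⟩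
  · intro X hX
    apply hinj
    have h4 : F * X = -(Xᵀ * F) := by
      rw [eq_neg_iff_add_eq_zero, add_comm]
      exact hn X hX
    calc F * (B' * X) = Bᵀ * (F * X) := by rw [← Matrix.mul_assoc, h1, Matrix.mul_assoc]
      _ = -((X * B)ᵀ * F) := by rw [h4, mul_neg, transpose_mul, Matrix.mul_assoc]
      _ = -((B * X)ᵀ * F) := by rw [hB X hX]
      _ = -(Xᵀ * F) * B' := by
          rw [transpose_mul, Matrix.mul_assoc, ← h1, neg_mul, Matrix.mul_assoc]
      _ = F * (X * B') := by rw [← h4, Matrix.mul_assoc]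
  · rw [hB', trace_mul_comm, Matrix.mul_assoc, mul_nonsing_inv F hF, mul_one, trace_transpose]

/-- the elements of the centre are selfadjoint -/
theorem fk_sym [Nonempty d] (hFK : FirstKind E M) {ε : ℂ} (hε : ε ≠ 0)
    (hF : IsUnit (E.map (algebraMap ℚ ℂ)).det)
    (hs : (E.map (algebraMap ℚ ℂ))ᵀ = ε • E.map (algebraMap ℚ ℂ))
    (hn : ∀ X ∈ nilP M, Xᵀ * E.map (algebraMap ℚ ℂ) + E.map (algebraMap ℚ ℂ) * X = 0)
    {e : Matrix d d ℂ} (he : e ∈ Zt M) :
    eᵀ * E.map (algebraMap ℚ ℂ) = E.map (algebraMap ℚ ℂ) * e := by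
  set F := E.map (algebraMap ℚ ℂ) with hFd
  have hinj : ∀ X Y : Matrix d d ℂ, F * X = F * Y → X = Y := by
    intro X Y h
    have := congrArg (fun Z => F⁻¹ * Z) h
    simpa only [← Matrix.mul_assoc, nonsing_inv_mul F hF, one_mul] using this
  obtain ⟨f, hf, h1, h2, h3⟩ := adj hε hF hs hn he.1
  have hfB : ∀ B ∈ Cmt M, f * B = B * f := by
    intro B hB
    obtain ⟨B', hB', h4, h5, -⟩ := adj hε hF hs hn hB
    apply hinj
    calc F * (f * B) = eᵀ * (F * B) := by rw [← Matrix.mul_assoc, h1, Matrix.mul_assoc]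
      _ = (B' * e)ᵀ * F := by rw [← h5, transpose_mul, Matrix.mul_assoc]
      _ = (e * B')ᵀ * F := by rw [he.2 B' hB']
      _ = B'ᵀ * F * f := by rw [transpose_mul, Matrix.mul_assoc, ← h1, Matrix.mul_assoc]
      _ = F * (B * f) := by rw [h5, Matrix.mul_assoc]
  obtain ⟨c, hc⟩ := hFK (e - f) (fun X hX => by rw [sub_mul, mul_sub, he.1 X hX, hf X hX])
    (fun B hB => by rw [sub_mul, mul_sub, he.2 B hB, hfB B hB])
    ⟨0, by
      rw [transpose_sub, sub_mul, mul_sub, h2, h1, zero_smul]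
      abel⟩
  have hc0 : c = 0 := by
    have h6 := congrArg Matrix.trace hc
    rw [trace_sub, h3, sub_self, trace_smul, trace_one, smul_eq_mul] at h6
    have h7 : ((Fintype.card d : ℕ) : ℂ) ≠ 0 := by exact_mod_cast Fintype.card_ne_zero
    exact (mul_eq_zero.1 h6.symm).resolve_right h7
  rw [hc0, zero_smul, sub_eq_zero] at hc
  rw [← h1, ← hc]

theorem map_form (τ : ℂ ≃+* ℂ) : (E.map (algebraMap ℚ ℂ)).map τ = E.map (algebraMap ℚ ℂ) := by
  ext i j
  simp

/-- the traces of the conjugates of the generator of the Deligne torus -/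
theorem tr_phi (hπ : Proj w E π) (hF : IsUnit (E.map (algebraMap ℚ ℂ)).det) (τ : ℂ ≃+* ℂ)
    {e : Matrix d d ℂ} (hs : eᵀ * E.map (algebraMap ℚ ℂ) = E.map (algebraMap ℚ ℂ) * e) :
    2 * ((Phi w π).map τ * e).trace = w * e.trace := by
  have h1 := congrArg τ.toRingHom.mapMatrix (MT100A.H97.phi_form hπ)
  obtain ⟨Ψ, hΨ⟩ : ∃ Ψ, Ψ = (Phi w π).map τ := ⟨_, rfl⟩
  have h2 : Ψᵀ * E.map (algebraMap ℚ ℂ) + E.map (algebraMap ℚ ℂ) * Ψ =
      (w : ℂ) • E.map (algebraMap ℚ ℂ) := by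
    rw [map_add, map_mul, map_mul] at h1
    have e1 : τ.toRingHom.mapMatrix (E.map (algebraMap ℚ ℂ)) = E.map (algebraMap ℚ ℂ) := map_form τ
    have e2 : τ.toRingHom.mapMatrix (Phi w π) = Ψ := hΨ.symm
    have e3 : τ.toRingHom.mapMatrix (Phi w π)ᵀ = Ψᵀ := by
      rw [hΨ]
      rfl
    have e4 : τ.toRingHom.mapMatrix ((w : ℂ) • E.map (algebraMap ℚ ℂ)) =
        (w : ℂ) • E.map (algebraMap ℚ ℂ) := by
      ext i j
      simp
    rwa [e1, e2, e3, e4] at h1
  rw [← hΨ]
  set F := E.map (algebraMap ℚ ℂ) with hFd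
  have h3 : eᵀ * Ψᵀ = (w : ℂ) • (F * e * F⁻¹) - F * (e * Ψ) * F⁻¹ := by
    have h4 : Ψᵀ * F = (w : ℂ) • F - F * Ψ := by rw [← h2, add_sub_cancel_right]
    calc eᵀ * Ψᵀ = eᵀ * (Ψᵀ * F) * F⁻¹ := by
          rw [Matrix.mul_assoc, Matrix.mul_assoc, mul_nonsing_inv F hF, mul_one]
      _ = ((w : ℂ) • (eᵀ * F) - eᵀ * F * Ψ) * F⁻¹ := by
          rw [h4, mul_sub, Matrix.mul_smul, Matrix.mul_assoc eᵀ F Ψ]
      _ = _ := by rw [hs, sub_mul, Matrix.smul_mul, Matrix.mul_assoc F e Ψ]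
  have h5 : (Ψ * e).trace = (w : ℂ) * e.trace - (e * Ψ).trace := by
    rw [← trace_transpose (Ψ * e), transpose_mul, h3, trace_sub, trace_smul, smul_eq_mul]
    congr 1
    · congr 1
      rw [trace_mul_comm, ← Matrix.mul_assoc, nonsing_inv_mul F hF, one_mul]
    · rw [trace_mul_comm, ← Matrix.mul_assoc, nonsing_inv_mul F hF, one_mul]
  rw [trace_mul_comm e Ψ] at h5
  linear_combination h5

/-! ### The comparison -/

theorem zpow_prod {ι' : Type*} (s : Finset ι') (c : ℂ) (hc : c ≠ 0) (f : ι' → ℤ) :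
    ∏ i ∈ s, c ^ f i = c ^ ∑ i ∈ s, f i := by
  classical
  induction s using Finset.induction_on with
  | empty => simp
  | insert a s ha ih => rw [Finset.prod_insert ha, Finset.sum_insert ha, ih, _root_.zpow_add₀ hc]

theorem sq_eq_one_iff_of_dom (x : ℂ) : x ^ 2 = 1 ↔ x = 1 ∨ x = -1 := by
  constructor
  · intro h
    have h1 : (x - 1) * (x + 1) = 0 := by linear_combination h
    rcases mul_eq_zero.1 h1 with h2 | h2
    · exact Or.inl (sub_eq_zero.1 h2)
    · exact Or.inr (eq_neg_of_add_eq_zero_left h2)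
  · rintro (rfl | rfl) <;> norm_num

/-- FKD -/
theorem fkd (hL : LatStmt) (hD : DteStmt) : FkdStmt := by
  intro d _ _ M w E V π hC hw hFK ℓ _ Γ _ ρ ι hcom hsim hdet s e m hid hZ
  rcases isEmpty_or_nonempty d with hd | hd
  · constructor
    · intro _ τ T _
      exact Finset.prod_eq_one fun i _ => by
        unfold dete
        rw [det_isEmpty, _root_.one_zpow]
    · intro _
      exact ⟨⊤, inferInstance, fun γ _ => Finset.prod_eq_one fun i _ => by
        unfold dete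
        rw [det_isEmpty, _root_.one_zpow]⟩
  obtain ⟨k, hk, hrel⟩ := hL d M w E V π hC s e hid hZ
  rw [hrel]
  clear hrel
  set F := E.map (algebraMap ℚ ℂ) with hFdef
  have hF : IsUnit F.det := det_map (det_ne hC.pol)
  have hs : Fᵀ = ((-1 : ℂ) ^ w) • F := by
    have h1 := congrArg (fun X : Matrix d d ℚ => X.map (algebraMap ℚ ℂ)) hC.pol.symm
    ext i j
    have h2 := congrFun (congrFun h1 i) j
    simp only [Matrix.map_apply, Matrix.transpose_apply, Matrix.smul_apply, smul_eq_mul, map_mul,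
      map_pow, map_neg, map_one] at h2
    rw [transpose_apply, hFdef, Matrix.map_apply, h2, Matrix.smul_apply, Matrix.map_apply,
      smul_eq_mul]
  have hε : ((-1 : ℂ) ^ w) ≠ 0 := pow_ne_zero _ (by norm_num)
  have hn : ∀ X ∈ nilP M, Xᵀ * F + F * X = 0 := fun X hX =>
    UP_form hC.inv (Submodule.subset_span hX)
  have hsym : ∀ i, (e i)ᵀ * F = F * e i := fun i => fk_sym hFK hε hF hs hn (hZ i)
  choose n hn' using fun i => MT100A.H97.trace_int (hid i)
  have hkn : ∀ τ i, 2 * k τ i = w * n i := by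
    intro τ i
    have h1 := tr_phi hC.proj hF τ (hsym i)
    rw [hk, hn'] at h1
    exact_mod_cast h1
  obtain ⟨S, hS⟩ : ∃ S : ℤ, S = ∑ i, m i * n i := ⟨_, rfl⟩
  have hSk : (∀ τ : ℂ ≃+* ℂ, ∑ i, m i * k τ i = 0) ↔ S = 0 := by
    have h1 : ∀ τ, 2 * ∑ i, m i * k τ i = w * S := by
      intro τ
      rw [hS, Finset.mul_sum, Finset.mul_sum]
      refine Finset.sum_congr rfl fun i _ => ?_
      have := hkn τ i
      linear_combination m i * this
    have hw0 : (w : ℤ) ≠ 0 := by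
      have : 1 ≤ w := hw
      omega
    constructor
    · intro h
      have h2 := h1 (RingEquiv.refl ℂ)
      rw [h, mul_zero] at h2
      exact (mul_eq_zero.1 h2.symm).resolve_left hw0
    · intro h τ
      have h2 := h1 τ
      rw [h, mul_zero] at h2
      exact (mul_eq_zero.1 h2).resolve_left two_ne_zero
  rw [hSk]
  have hmap : ∀ a b : Γ, (ρ (a * b) : Matrix d d ℚ_[ℓ]).map ι =
      (ρ a : Matrix d d ℚ_[ℓ]).map ι * (ρ b : Matrix d d ℚ_[ℓ]).map ι := by
    intro a b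
    rw [map_mul, GeneralLinearGroup.coe_mul]
    have := map_mul ι.mapMatrix (ρ a : Matrix d d ℚ_[ℓ]) (ρ b : Matrix d d ℚ_[ℓ])
    rwa [RingHom.mapMatrix_apply, RingHom.mapMatrix_apply, RingHom.mapMatrix_apply] at this
  have hmap1 : (ρ 1 : Matrix d d ℚ_[ℓ]).map ι = 1 := by
    rw [map_one, GeneralLinearGroup.coe_one]
    exact Matrix.map_one ι (map_zero ι) (map_one ι)
  have hunit : ∀ γ : Γ, IsUnit ((ρ γ : Matrix d d ℚ_[ℓ]).map ι).det := by
    intro γ
    have h8 := ((isUnit_iff_isUnit_det _).1 (ρ γ).isUnit).map ι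
    rwa [RingHom.map_det, RingHom.mapMatrix_apply] at h8
  have hdetm : ∀ γ : Γ, ((ρ γ : Matrix d d ℚ_[ℓ]).map ι).det = ι (ρ γ : Matrix d d ℚ_[ℓ]).det := by
    intro γ
    rw [RingHom.map_det, RingHom.mapMatrix_apply]
  obtain ⟨Γc, hΓc, hcm⟩ := hcom
  -- multipliers
  have hdc : ∀ (g : Matrix d d ℂ) (c : ℂ), gᵀ * F * g = c • F →
      g.det ^ 2 = c ^ Fintype.card d := by
    intro g c h
    have h1 := congrArg Matrix.det h
    rw [det_mul, det_mul, det_transpose, det_smul] at h1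
    apply mul_left_cancel₀ hF.ne_zero
    linear_combination h1
  have hc0 : ∀ (γ : Γ) (c : ℂ), ((ρ γ : Matrix d d ℚ_[ℓ]).map ι)ᵀ * F *
      (ρ γ : Matrix d d ℚ_[ℓ]).map ι = c • F → c ≠ 0 := by
    intro γ c h h0
    have h1 := hdc _ _ h
    rw [h0, zero_pow Fintype.card_ne_zero] at h1
    exact (hunit γ).ne_zero (pow_eq_zero_iff two_ne_zero |>.1 h1)
  have hsq : ∀ γ ∈ Γc, ∀ c : ℂ, ((ρ γ : Matrix d d ℚ_[ℓ]).map ι)ᵀ * F *
      (ρ γ : Matrix d d ℚ_[ℓ]).map ι = c • F →
      (∏ i, dete ((ρ γ : Matrix d d ℚ_[ℓ]).map ι) (e i) ^ m i) ^ 2 = c ^ S := by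
    intro γ hγ c h
    rw [← Finset.prod_pow, hS, ← zpow_prod _ c (hc0 γ c h)]
    refine Finset.prod_congr rfl fun i _ => ?_
    have h1 := dete_sq hF (hid i) (hcm γ hγ (e i) (hZ i).1) (hsym i) h
    rw [det_pow_trace hD (hid i) (hn' i)] at h1
    rw [← _root_.zpow_natCast, ← _root_.zpow_mul, mul_comm (m i), _root_.zpow_mul,
      _root_.zpow_natCast, h1, ← _root_.zpow_natCast, ← _root_.zpow_mul, mul_comm (m i)]
  constructor
  · rintro ⟨Γ', hΓ', h1⟩
    by_contra hS0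
    obtain ⟨γ0, hγ0⟩ := hdet
    have hfin : (Γ' ⊓ Γc).FiniteIndex := by
      have := hΓ'
      have := hΓc
      infer_instance
    obtain ⟨N, hN, -, hmem⟩ := Subgroup.exists_pow_mem_of_index_ne_zero
      (H := Γ' ⊓ Γc) hfin.index_ne_zero γ0
    obtain ⟨c, hc⟩ := hsim γ0
    have hpow : ∀ j : ℕ, (ρ (γ0 ^ j) : Matrix d d ℚ_[ℓ]).map ι =
        ((ρ γ0 : Matrix d d ℚ_[ℓ]).map ι) ^ j := by
      intro j
      induction j with
      | zero => rw [pow_zero, pow_zero, hmap1]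
      | succ j ih => rw [pow_succ, hmap, ih, pow_succ]
    have hcN : ∀ j : ℕ, (((ρ γ0 : Matrix d d ℚ_[ℓ]).map ι) ^ j)ᵀ * F *
        ((ρ γ0 : Matrix d d ℚ_[ℓ]).map ι) ^ j = c ^ j • F := by
      intro j
      induction j with
      | zero => rw [pow_zero, pow_zero, transpose_one, one_mul, mul_one, one_smul]
      | succ j ih =>
        calc (((ρ γ0 : Matrix d d ℚ_[ℓ]).map ι) ^ (j + 1))ᵀ * F *
              ((ρ γ0 : Matrix d d ℚ_[ℓ]).map ι) ^ (j + 1) =
              ((ρ γ0 : Matrix d d ℚ_[ℓ]).map ι)ᵀ * ((((ρ γ0 : Matrix d d ℚ_[ℓ]).map ι) ^ j)ᵀ * F *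
              ((ρ γ0 : Matrix d d ℚ_[ℓ]).map ι) ^ j) * (ρ γ0 : Matrix d d ℚ_[ℓ]).map ι := by
                rw [pow_succ, transpose_mul]
                simp only [Matrix.mul_assoc]
          _ = c ^ (j + 1) • F := by
                rw [ih, Matrix.mul_smul, Matrix.smul_mul, hc, smul_smul, pow_succ]
    have h2 := hsq (γ0 ^ N) hmem.2 (c ^ N) (by rw [hpow]; exact hcN N)
    rw [h1 _ hmem.1, one_pow] at h2
    have h3 : (c ^ N) ^ S.natAbs = 1 := by
      rcases Int.natAbs_eq S with h4 | h4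
      · rw [h4, _root_.zpow_natCast] at h2
        exact h2.symm
      · rw [h4, _root_.zpow_neg, _root_.zpow_natCast] at h2
        exact inv_eq_one.1 h2.symm
    have h4 : ((ρ γ0 : Matrix d d ℚ_[ℓ]).det ^ (2 * (N * S.natAbs))) = 1 := by
      apply ι.injective
      rw [map_one, map_pow, ← hdetm, pow_mul, hdc _ _ hc, ← pow_mul, mul_comm, pow_mul, pow_mul, h3,
        one_pow]
    refine hγ0 _ ?_ h4
    have h5 : 0 < S.natAbs := Int.natAbs_pos.2 hS0
    positivity
  · intro hS0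
    have hP2 : ∀ γ ∈ Γc, (∏ i, dete ((ρ γ : Matrix d d ℚ_[ℓ]).map ι) (e i) ^ m i) ^ 2 = 1 := by
      intro γ hγ
      obtain ⟨c, hc⟩ := hsim γ
      rw [hsq γ hγ c hc, hS0, _root_.zpow_zero]
    have hPm : ∀ a ∈ Γc, ∀ b ∈ Γc,
        ∏ i, dete ((ρ (a * b) : Matrix d d ℚ_[ℓ]).map ι) (e i) ^ m i =
        (∏ i, dete ((ρ a : Matrix d d ℚ_[ℓ]).map ι) (e i) ^ m i) *
          ∏ i, dete ((ρ b : Matrix d d ℚ_[ℓ]).map ι) (e i) ^ m i := by
      intro a _ b hb
      rw [← Finset.prod_mul_distrib]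
      refine Finset.prod_congr rfl fun i _ => ?_
      rw [hmap, dete_mul (hid i) (hcm b hb (e i) (hZ i).1), _root_.mul_zpow]
    let f : Γc →* ℂˣ := MonoidHom.mk'
      (fun γ => Units.mk0 (∏ i, dete ((ρ (γ : Γ) : Matrix d d ℚ_[ℓ]).map ι) (e i) ^ m i) (by
        intro h0
        have := hP2 γ γ.2
        rw [h0] at this
        norm_num at this)) (by
        intro a b
        ext
        exact hPm a a.2 b b.2)
    have hfr : Finite f.range := by
      have h1 : (f.range : Set ℂˣ) ⊆ {1, -1} := by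
        rintro _ ⟨γ, rfl⟩
        have h2 := hP2 γ γ.2
        rcases (sq_eq_one_iff_of_dom _).1 h2 with h3 | h3
        · left
          ext
          exact h3
        · right
          ext
          exact h3
      exact Set.Finite.subset (Set.toFinite _) h1
    have hker : f.ker.FiniteIndex := by infer_instance
    refine ⟨f.ker.map Γc.subtype, ⟨?_⟩, ?_⟩
    · rw [Subgroup.index_map_subtype]
      exact mul_ne_zero hker.index_ne_zero hΓc.index_ne_zero
    · rintro _ ⟨γ, hγ, rfl⟩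
      have h1 : f γ = 1 := hγ
      exact congrArg Units.val h1

end Pool.Agent.MT100E.H2
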