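import Pool.Agent.MT100E.Stmts

/-! MT100-E, module LIT: the Lie algebra of a central torus, from the relations between its characters. -/

set_option autoImplicit false
set_option linter.unusedSectionVars false

namespace Pool.Agent.MT100E.H2

open MvPolynomial Pool.Agent.Helper78_MT Pool.Agent.MT100E

section
variable {s : ℕ}

/-- the Euler derivation with weights `v` -/
noncomputable def eul (v : Fin s → ℂ) :
    Derivation ℂ (MvPolynomial (Fin s) ℂ) (MvPolynomial (Fin s) ℂ) :=
  mkDerivation ℂ (fun i => v i • (X i : MvPolynomial (Fin s) ℂ))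

theorem eul_X (v : Fin s → ℂ) (i : Fin s) : eul v (X i) = v i • X i := by
  simp [eul, mkDerivation_X]

theorem eul_monomial (v : Fin s → ℂ) (α : Fin s →₀ ℕ) (c : ℂ) :
    eul v (monomial α c) = (∑ i, (α i : ℂ) * v i) • monomial α c := by
  rw [eul, mkDerivation_monomial, Finset.sum_smul, Finsupp.sum_fintype]
  · rw [Finset.smul_sum]
    apply Finset.sum_congr rfl
    intro i _
    by_cases h : α i = 0
    · simp [h]
    · have h1 : α - Finsupp.single i 1 + Finsupp.single i 1 = α := by
        ext j
        rw [Finsupp.add_apply, Finsupp.tsub_apply]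
        by_cases hj : i = j
        · subst hj
          rw [Finsupp.single_eq_same]
          omega
        · rw [Finsupp.single_apply, if_neg hj]
          omega
      rw [smul_eq_mul, mul_smul_comm, X, monomial_mul, h1, mul_one, smul_monomial, smul_monomial,
        smul_monomial]
      congr 1
      simp only [smul_eq_mul]
      ring
  · intro i
    simp

/-- the character of a submonoid given by an exponent -/
def chr (S : Submonoid (Fin s → ℂ)) (α : Fin s →₀ ℕ) : S →* ℂ where
  toFun ζ := ∏ i, (ζ : Fin s → ℂ) i ^ α i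
  map_one' := by simp
  map_mul' := by
    intro a b
    rw [← Finset.prod_mul_distrib]
    apply Finset.prod_congr rfl
    intro i _
    rw [Submonoid.coe_mul, Pi.mul_apply, mul_pow]

theorem ded (S : Submonoid (Fin s → ℂ)) (hS : ∀ ζ ∈ S, ∀ i, ζ i ≠ 0) {v : Fin s → ℂ}
    (hv : ∀ m : Fin s → ℤ, (∀ ζ ∈ S, ∏ i, ζ i ^ m i = 1) → ∑ i, (m i : ℂ) * v i = 0)
    {P : MvPolynomial (Fin s) ℂ} (hP : ∀ ζ ∈ S, eval ζ P = 0) :
    ∑ α ∈ P.support, coeff α P * ∑ i, (α i : ℂ) * v i = 0 := by
  classical
  have hw : ∀ α β : Fin s →₀ ℕ, chr S α = chr S β →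
      ∑ i, (α i : ℂ) * v i = ∑ i, (β i : ℂ) * v i := by
    intro α β h
    have h1 := hv (fun i => (α i : ℤ) - (β i : ℤ)) (by
      intro ζ hζ
      have h2 : ∏ i, ζ i ^ α i = ∏ i, ζ i ^ β i := by
        have := DFunLike.congr_fun h ⟨ζ, hζ⟩
        exact this
      have h3 : ∏ i, ζ i ^ β i ≠ 0 := Finset.prod_ne_zero_iff.2 fun i _ => pow_ne_zero _ (hS ζ hζ i)
      have h4 : ∀ i, ζ i ^ ((α i : ℤ) - (β i : ℤ)) = ζ i ^ α i / ζ i ^ β i := by
        intro i
        rw [zpow_sub₀ (hS ζ hζ i), zpow_natCast, zpow_natCast]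
      rw [Finset.prod_congr rfl fun i _ => h4 i, Finset.prod_div_distrib, h2, div_self h3])
    have h5 : ∑ i, (((α i : ℤ) - (β i : ℤ) : ℤ) : ℂ) * v i =
        ∑ i, (α i : ℂ) * v i - ∑ i, (β i : ℂ) * v i := by
      rw [← Finset.sum_sub_distrib]
      apply Finset.sum_congr rfl
      intro i _
      push_cast
      ring
    rw [h5] at h1
    exact sub_eq_zero.1 h1
  have hli := linearIndependent_iff'.1 (linearIndependent_monoidHom S ℂ) (P.support.image (chr S))
    (fun χ => ∑ α ∈ P.support.filter (fun α => chr S α = χ), coeff α P) (by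
      funext ζ
      rw [Finset.sum_apply, Pi.zero_apply, ← hP ζ.1 ζ.2, eval_eq,
        ← Finset.sum_fiberwise_of_maps_to (g := chr S) (t := P.support.image (chr S))
          (fun α hα => Finset.mem_image_of_mem _ hα)]
      apply Finset.sum_congr rfl
      intro χ _
      rw [Pi.smul_apply, smul_eq_mul, Finset.sum_mul]
      apply Finset.sum_congr rfl
      intro α hα
      rw [← (Finset.mem_filter.1 hα).2]
      have : ∏ i ∈ α.support, ζ.1 i ^ α i = ∏ i, ζ.1 i ^ α i := by
        apply Finset.prod_subset (Finset.subset_univ _)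
        intro i _ hi
        rw [Finsupp.notMem_support_iff.1 hi, pow_zero]
      rw [this]
      rfl)
  rw [← Finset.sum_fiberwise_of_maps_to (g := chr S) (t := P.support.image (chr S))
    (fun α hα => Finset.mem_image_of_mem _ hα)]
  apply Finset.sum_eq_zero
  intro χ hχ
  obtain ⟨β, -, hβ⟩ := Finset.mem_image.1 hχ
  have h1 : ∀ α ∈ P.support.filter (fun α => chr S α = χ),
      coeff α P * ∑ i, (α i : ℂ) * v i = coeff α P * ∑ i, (β i : ℂ) * v i := by
    intro α hα
    rw [hw α β (by rw [(Finset.mem_filter.1 hα).2, hβ])]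
  rw [Finset.sum_congr rfl h1, ← Finset.sum_mul, hli χ hχ, zero_mul]

end

theorem lit : LitStmt := by
  intro d _ _ s e hidem horth hsum G hG Λ hne hone hmul hmem v hv
  rw [mem_lieOf]
  intro p hp g hg
  let S : Submonoid (Fin s → ℂ) :=
    { carrier := Λ
      one_mem' := hone
      mul_mem' := fun {a b} ha hb => hmul a ha b hb }
  obtain ⟨φ, hφ⟩ : ∃ φ : MvPolynomial (d × d) ℂ →ₐ[ℂ] MvPolynomial (Fin s) ℂ,
      ∀ i j, φ (X (i, j)) = ∑ l, (g * e l) i j • X l :=
    ⟨aeval (fun ij : d × d => ∑ l, (g * e l) ij.1 ij.2 • X l), fun i j => by simp⟩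
  have heval : ∀ (ζ : Fin s → ℂ) (q : MvPolynomial (d × d) ℂ),
      eval ζ (φ q) = pev (g * ∑ i, ζ i • e i) q := by
    intro ζ q
    have h : (aeval (R := ℂ) ζ).comp φ = pev (F := ℂ) (g * ∑ i, ζ i • e i) := by
      apply MvPolynomial.algHom_ext
      rintro ⟨i, j⟩
      rw [AlgHom.comp_apply, hφ, pev_X, map_sum, Finset.mul_sum, Matrix.sum_apply]
      apply Finset.sum_congr rfl
      intro l _
      rw [map_smul, aeval_X, Matrix.mul_smul, Matrix.smul_apply, smul_eq_mul, smul_eq_mul, mul_comm]
    rw [← h]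
    rfl
  have hee : ∀ l, g * e l * ∑ i, v i • e i = v l • (g * e l) := by
    intro l
    rw [Finset.mul_sum, Finset.sum_eq_single l]
    · rw [mul_smul_comm, mul_assoc, hidem]
    · intro k _ hk
      rw [mul_smul_comm, mul_assoc, horth l k hk.symm, mul_zero, smul_zero]
    · intro h
      exact absurd (Finset.mem_univ l) h
  have hder : ∀ q : MvPolynomial (d × d) ℂ, eul v (φ q) = φ (dr (∑ i, v i • e i) q) := by
    intro q
    induction q using MvPolynomial.induction_on with
    | C c =>
      have h1 : φ (C c) = C c := φ.commutes c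
      have h2 : (C c : MvPolynomial (d × d) ℂ) = algebraMap ℂ _ c := rfl
      have h3 : (C c : MvPolynomial (Fin s) ℂ) = algebraMap ℂ _ c := rfl
      rw [h1, h2, h3, Derivation.map_algebraMap, Derivation.map_algebraMap, map_zero]
    | add p q hp hq => rw [map_add, map_add, hp, hq, map_add, map_add]
    | mul_X p ij hp =>
      obtain ⟨i, j⟩ := ij
      have h1 : eul v (φ (X (i, j))) = φ (dr (∑ i, v i • e i) (X (i, j))) := by
        rw [hφ, dr_X, map_sum, map_sum]
        have h2 : ∀ k, φ ((∑ i, v i • e i) k j • X (i, k)) =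
            ∑ l, ((g * e l) i k * (∑ i, v i • e i) k j) • X l := by
          intro k
          rw [map_smul, hφ, Finset.smul_sum]
          apply Finset.sum_congr rfl
          intro l _
          rw [smul_smul, mul_comm]
        rw [Finset.sum_congr rfl fun k _ => h2 k, Finset.sum_comm]
        apply Finset.sum_congr rfl
        intro l _
        rw [← Finset.sum_smul, ← Matrix.mul_apply, hee, Derivation.map_smul, eul_X, smul_smul,
          Matrix.smul_apply, smul_eq_mul, mul_comm]
      rw [map_mul, Derivation.leibniz, Derivation.leibniz, map_add, smul_eq_mul, smul_eq_mul,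
        smul_eq_mul, smul_eq_mul, map_mul, map_mul, hp, h1]
  have h1 : pev g (dr (∑ i, v i • e i) p) = eval 1 (eul v (φ p)) := by
    rw [hder, heval]
    have : ∑ i, (1 : Fin s → ℂ) i • e i = 1 := by
      rw [← hsum]
      apply Finset.sum_congr rfl
      intro i _
      rw [Pi.one_apply, one_smul]
    rw [this, mul_one]
  rw [h1]
  have h2 : eval (1 : Fin s → ℂ) (eul v (φ p)) =
      ∑ α ∈ (φ p).support, coeff α (φ p) * ∑ i, (α i : ℂ) * v i := by
    have h3 : eul v (φ p) = ∑ α ∈ (φ p).support, eul v (monomial α (coeff α (φ p))) := by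
      rw [← map_sum, ← as_sum]
    rw [h3, map_sum]
    apply Finset.sum_congr rfl
    intro α _
    rw [eul_monomial, smul_eval, eval_monomial]
    simp [mul_comm]
  rw [h2]
  apply ded S hne hv
  intro ζ hζ
  rw [heval]
  exact hp _ (hG _ hg _ (hmem ζ hζ))

end Pool.Agent.MT100E.H2
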